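import Pool.Agent.Helper92.HB.Seq
import Pool.Agent.Helper65.BR.Final2

/-!
# The hub of six models: regular expressions and random words
-/

namespace Pool.Agent.Helper92.HB

open Pool.Agent.Helper65.LinSpace Pool.Agent.Helper78.Mpc
open Pool.Agent.Helper65.BR (allA allN lsk plsk SimA)

/-- The six models. -/
noncomputable def all (c : ℕ) : Fam :=
  ⟨allA c, allN c, Pool.Agent.Helper65.BR.LS.allA lsk plsk c,
    Pool.Agent.Helper65.BR.LS.allN lsk plsk c⟩

theorem simG_simA {c : ℕ} {Acc Good : List Bool → List Bool → Prop} (h : SimA c Acc Good) :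
    SimG (all c) c Acc Good := h

theorem simG_all {c : ℕ} {Acc Good : List Bool → List Bool → Prop}
    (h : Pool.Agent.Helper92.KR.Sim c Acc Good) : SimG (all c) c Acc Good :=
  simG_simA (SimA.of_sim h)

end Pool.Agent.Helper92.HB
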