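import Pool.Agent.Helper92.RE.Final

/-!
# Regular expressions and random words for every family of machines with a code
-/

namespace Pool.Agent.Helper92.HB

open Pool.Agent.Helper65.LinSpace Pool.Agent.Helper78.Mpc
open Pool.Agent.Helper81.Gen4 (Q Q_mono)
open Pool.Agent.Helper31.Gen5 (Hard q_hard)
open Pool.Agent.Helper31.MHS (q_take)
open Pool.Agent.Helper92.KR (Coded Coded.even Coded.odd par Desc Rand KHard kr_all)
open Pool.Agent.Helper92.RE (enc Universal NonUniversal LD hard_adv redB exists_red Loc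
  loc_redB le_redB finite_of_hard half_of_hard)

/-- The code functions of a family. -/
structure Fam where
  A : ℕ → ℕ → ℕ → ℕ → ℕ
  N : ℕ → ℕ
  lsA : LS (fun z : ℕ × ℕ × ℕ × ℕ => A z.1 z.2.1 z.2.2.1 z.2.2.2)
  lsN : LS N

/-- Computations which are simulated by a machine with a code of the family `H`, for long words `w`
and for words `y` of at most `4 c |w|` letters. -/
def SimG (H : Fam) (c : ℕ) (Acc Good : List Bool → List Bool → Prop) : Prop :=
  ∃ Acc₀ Good₀ : List Bool → List Bool → Prop,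
    ((∀ w y, Good₀ w y → Acc₀ w y) ∧ Coded H.A H.N Acc₀ Good₀) ∧
    (∀ w y, Acc₀ w y → Acc w y) ∧ (∀ w y, Good w y → Acc₀ w y) ∧
    ∃ n₁ : ℕ, ∀ w y : List Bool, n₁ ≤ w.length → y.length ≤ 4 * c * w.length →
      Good w y → Good₀ w y

/-- **Hardness**, for all machines with a code, with and without guessed letters. -/
theorem coded_hard (H : Fam) (c : ℕ) (hc : 0 < c) :
    ∃ L : Set (List Bool), DLINSPACE L ∧
      ∀ Acc Good : List Bool → List Bool → Prop, Coded H.A H.N Acc Good →
        Hard L c (fun w α => Q (c * w.length) fun v => Acc w (α ++ v))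
          (fun w α => Q (c * w.length) fun v => Good w (α ++ v)) ∧ Hard L c Acc Good := by
  obtain ⟨L, h1, h2⟩ := q_hard (par H.A c) H.N (Pool.Agent.Helper92.KR.LS.par H.lsA c) H.lsN c c hc
  refine ⟨L, h1, fun Acc Good h => ⟨h2 Acc Good (h.even c), ?_⟩⟩
  exact (h2 _ _ (h.odd c)).mono (fun w α h => (q_take c w α fun y => Acc w y).1 h)
    (fun w α h => (q_take c w α fun y => Good w y).2 h)

/-- **Hardness**, with and without guessed letters. -/
theorem simG_hard (H : Fam) (c : ℕ) (hc : 0 < c) :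
    ∃ L : Set (List Bool), DLINSPACE L ∧
      ∀ Acc Good : List Bool → List Bool → Prop, SimG H c Acc Good →
        Hard L c (fun w α => Q (c * w.length) fun v => Acc w (α ++ v))
          (fun w α => Q (c * w.length) fun v => Good w (α ++ v)) ∧ Hard L c Acc Good := by
  obtain ⟨L, h1, h2⟩ := coded_hard H c hc
  refine ⟨L, h1, fun Acc Good ⟨Acc₀, Good₀, h3, h4, _, n₁, h5⟩ => ?_⟩
  obtain ⟨h6, h7⟩ := h2 Acc₀ Good₀ h3.2
  constructor
  · refine (hard_adv hc h6 n₁ (Good' := fun w α => Q (c * w.length) fun v => Good w (α ++ v))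
      ?_).mono ?_ fun w α h => h
    · intro w α hw hα h
      refine Q_mono (fun x u y hx hu hy h8 => h5 w _ hw ?_ h8) h
      simp only [List.length_append, hx, hu, hy]
      have : 4 * c * w.length = c * w.length + (c * w.length + (c * w.length + c * w.length)) := by
        ring
      omega
    · exact fun w α h => Q_mono (fun x u y _ _ _ h8 => h4 w _ h8) h
  · refine (hard_adv hc h7 n₁ (Good' := Good) ?_).mono (fun w α h => h4 w α h) fun w α h => h
    intro w α hw hα h
    refine h5 w α hw (hα.trans ?_) h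
    exact Nat.mul_le_mul_right _ (by omega)

/-- **Random words**, for all machines with a code, with and without guessed letters. -/
theorem coded_kr (H : Fam) (c : ℕ) :
    ∃ D₀ : List Bool → List Bool, LinComp D₀ ∧ (∃ b : ℕ, ∀ w, Desc D₀ w (w.length + b)) ∧
      ∀ D : List Bool → List Bool, LinComp D →
      (∃ b : ℕ, ∀ w k, Desc D₀ w k → Desc D w (k + b)) →
      (∀ g : ℚ, DLINSPACE (Rand D g)) ∧
      ∀ Acc Good : List Bool → List Bool → Prop,
        ((∀ w y, Good w y → Acc w y) ∧ Coded H.A H.N Acc Good) →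
        KHard D (fun w α => Q (c * w.length) fun v => Acc w (α ++ v))
          (fun w α => Q (c * w.length) fun v => Good w (α ++ v)) ∧ KHard D Acc Good := by
  obtain ⟨D₀, h1, h2, h3⟩ := kr_all (par H.A c) H.N (Pool.Agent.Helper92.KR.LS.par H.lsA c) H.lsN c
  refine ⟨D₀, h1, h2, fun D hD hb => ?_⟩
  obtain ⟨h4, h5⟩ := h3 D hD hb
  refine ⟨h4, fun Acc Good h => ⟨h5 Acc Good h.1 (h.2.even c), ?_⟩⟩
  exact (h5 _ _ (fun w y => h.1 w _) (h.2.odd c)).mono'
    (fun w α h => (q_take c w α fun y => Acc w y).1 h)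
    (fun w α h => (q_take c w α fun y => Good w y).2 h)

/-- **Random words**, with and without guessed letters. -/
theorem simG_kr (H : Fam) (c : ℕ) (hc : 0 < c) :
    ∃ D₀ : List Bool → List Bool, LinComp D₀ ∧ ∀ D : List Bool → List Bool, LinComp D →
      (∃ b : ℕ, ∀ w k, Desc D₀ w k → Desc D w (k + b)) →
      (∀ g : ℚ, DLINSPACE (Rand D g)) ∧
      ∀ Acc Good : List Bool → List Bool → Prop, SimG H c Acc Good →
        KHard D Acc Good ∧ KHard D (fun w α => Q (c * w.length) fun v => Acc w (α ++ v))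
          (fun w α => Q (c * w.length) fun v => Good w (α ++ v)) := by
  obtain ⟨D₀, h1, ⟨b₀, hb₀⟩, h2⟩ := coded_kr H c
  refine ⟨D₀, h1, fun D hD hb => ?_⟩
  obtain ⟨g1, g2⟩ := h2 D hD hb
  have hself : ∃ b : ℕ, ∀ w, Desc D w (w.length + b) := by
    obtain ⟨b, hb⟩ := hb
    refine ⟨b₀ + b, fun w => ?_⟩
    rw [← add_assoc]
    exact hb w _ (hb₀ w)
  refine ⟨g1, fun Acc Good ⟨Acc₀, Good₀, h3, h4, h9, n₁, h5⟩ => ?_⟩
  obtain ⟨h6, h7⟩ := g2 Acc₀ Good₀ h3
  refine And.symm ⟨?_, ?_⟩
  · refine (h6.adv hself hc n₁ (Good' := fun w α => Q (c * w.length) fun v => Good w (α ++ v))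
      ?_ ?_).mono' ?_ fun w α h => h
    · exact fun w α h => Q_mono (fun x u y _ _ _ h8 => h9 w _ h8) h
    · intro w α hw hα h
      refine Q_mono (fun x u y hx hu hy h8 => h5 w _ hw ?_ h8) h
      simp only [List.length_append, hx, hu, hy]
      have : 4 * c * w.length = c * w.length + (c * w.length + (c * w.length + c * w.length)) := by
        ring
      omega
    · exact fun w α h => Q_mono (fun x u y _ _ _ h8 => h4 w _ h8) h
  · refine (h7.adv hself hc n₁ (Good' := Good) h9 ?_).mono' (fun w α h => h4 w α h)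
      fun w α h => h
    intro w α hw hα h
    refine h5 w α hw (hα.trans ?_) h
    exact Nat.mul_le_mul_right _ (by omega)

/-- **Regular expressions**, for every family. -/
theorem regexG (H : Fam) (c : ℕ) (hc : 0 < c) :
    ∃ (L : Set (List Bool)) (f : List Bool → RegularExpression Bool) (b : ℕ) (D : LD),
      DLINSPACE L ∧ D.Is (fun w => enc (f w)) ∧ LinComp (fun w => enc (f w)) ∧
      (∀ w, w.length ≤ (enc (f w)).length) ∧ (∀ w, (enc (f w)).length ≤ b * (w.length + 1)) ∧
      (∀ w, (f w).matches' = ⊤ ↔ w ∉ L) ∧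
      ∀ Acc Good : List Bool → List Bool → Prop, SimG H c Acc Good →
        (Hard L c Acc Good ∧ Hard L c (fun w α => Q (c * w.length) fun v => Acc w (α ++ v))
          (fun w α => Q (c * w.length) fun v => Good w (α ++ v))) ∧
        (∀ U : Set (List Bool), U = Universal ∨ U = NonUniversal →
          (∀ w, Acc w [] → enc (f w) ∈ U) → {w | Good w []}.Finite) ∧
        ((∀ w α, ¬Acc w α) →
          ∃ c' : ℝ, ∀ n : ℕ, |({w : List Bool | w.length = n ∧ w ∈ L}.ncard : ℝ) - 2 ^ n / 2| ≤
            c' * 2 ^ ((n : ℝ) / 2)) := by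
  obtain ⟨L, hL, hH⟩ := simG_hard H c hc
  refine ⟨L, ?_⟩
  obtain ⟨k₀, M₀, a, hM⟩ := id hL
  obtain ⟨b₀, code, hb₀, hcode⟩ := Pool.Agent.Helper92.RE.exists_code M₀
  obtain ⟨f, hfdef⟩ : ∃ f : List Bool → RegularExpression Bool,
      f = fun w => redB code w ((a + 1) * (w.length + 1)) := ⟨_, rfl⟩
  have hf : ∀ w, (f w).matches' = ⊤ ↔ w ∉ L := fun w => by
    rw [hfdef]
    exact exists_red hM hb₀ hcode w
  have hloc : Loc fun w => enc (f w) := by
    rw [hfdef]
    exact loc_redB code (o := fun n => (a + 1) * (n + 1)) (by fun_prop) (a := a + 1)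
      fun n => le_rfl
  have hle : ∀ w : List Bool, w.length ≤ (enc (f w)).length := fun w => by
    rw [hfdef]
    refine le_trans ?_ (le_redB code w ((a + 1) * (w.length + 1)))
    nlinarith [Nat.zero_le a, Nat.zero_le w.length]
  obtain ⟨D, hD, b, hlen⟩ := hloc.exists_ld
  refine ⟨f, b, D, hL, hD, hloc.linComp, hle, hlen, hf, fun Acc Good hS => ?_⟩
  obtain ⟨h1, h2⟩ := hH Acc Good hS
  have hGA : ∀ w α, Good w α → Acc w α := by
    obtain ⟨Acc₀, Good₀, -, h4, h5, -⟩ := hS
    exact fun w α h => h4 w α (h5 w α h)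
  refine ⟨⟨h2, h1⟩, fun U hU hA => finite_of_hard h2 hf hU hA, fun hno => ?_⟩
  refine half_of_hard (c := c) (h2.mono ?_ ?_)
  · exact fun w α h => hno w α h
  · exact fun w α h => h.elim

end Pool.Agent.Helper92.HB
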