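import Pool.Agent.Helper92.HB.All
import Pool.Agent.Helper20.BRT.Defs

/-!
# Six models: regular expressions and random words
-/

namespace Pool.Agent.Helper92.HB

open Pool.Agent.Helper65.LinSpace Pool.Agent.Helper78.Mpc
open Pool.Agent.Helper81.RP (Ins)
open Pool.Agent.Helper81.Gen4 (Q)
open Pool.Agent.Helper31.Gen5 (Hard)
open Pool.Agent.Helper31.Ink (Sparing sim_ink)
open Pool.Agent.Helper92.KR (Desc Rand KHard sim_tm1 ncard_rand idLD_is)
open Pool.Agent.Helper92.RE (enc Universal NonUniversal LD InTime)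
open Pool.Agent.Helper92.RB (Fast sim_ram)
open Pool.Agent.Helper20.BRT (InMoves)
open Pool.Agent.Helper65.BR (SimA)

/-- The simulation of Turing machines with few moves of the work heads. -/
def MovesSim : Prop := ∀ (c : ℕ) {D : LD} {F : List Bool → List Bool}, D.Is F → ∀ {b : ℕ},
  (∀ w, (F w).length ≤ b * (w.length + 1)) → (∀ w, w.length ≤ (F w).length) →
  ∀ (k : ℕ) (M : TM k) (C : ℝ),
    SimA c (fun w y => ∃ t, Pool.Agent.Helper31.TMS.AcceptsAt M (F w ++ y) t)
      (fun w y => InMoves M (fun n => C * ((n : ℝ) + 1) ^ (2 : ℝ) /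
        ((Nat.log 2 n : ℝ) + 1) ^ 4) (F w ++ y))

/-- **Regular expressions.** -/
theorem regex_all (hMS : MovesSim) (c : ℕ) (hc : 0 < c) :
    ∃ (L : Set (List Bool)) (f : List Bool → RegularExpression Bool) (b : ℕ), DLINSPACE L ∧
      LinComp (fun w => enc (f w)) ∧
      (∀ w, w.length ≤ (enc (f w)).length ∧ (enc (f w)).length ≤ b * (w.length + 1)) ∧
      (∀ w, (f w).matches' = ⊤ ↔ w ∉ L) ∧
      (∃ c' : ℝ, ∀ n : ℕ, |({w : List Bool | w.length = n ∧ w ∈ L}.ncard : ℝ) - 2 ^ n / 2| ≤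
        c' * 2 ^ ((n : ℝ) / 2)) ∧
      (∀ (P : List Ins) (C : ℝ),
        Hard L c (fun w α => ∃ t, Pool.Agent.Helper81.RP.AcceptsAt P (enc (f w)) α t)
          (fun w α => Fast P C (enc (f w)) α) ∧
        Hard L c (fun w α => Q (c * w.length) fun v =>
            ∃ t, Pool.Agent.Helper81.RP.AcceptsAt P (enc (f w)) (α ++ v) t)
          (fun w α => Q (c * w.length) fun v => Fast P C (enc (f w)) (α ++ v))) ∧
      (∀ (k : ℕ) (M : TM k) (C : ℝ),
        Hard L c (fun w α => ∃ t, Pool.Agent.Helper31.TMS.AcceptsAt M (enc (f w) ++ α) t)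
          (fun w α => InMoves M (fun n => C * ((n : ℝ) + 1) ^ (2 : ℝ) /
            ((Nat.log 2 n : ℝ) + 1) ^ 4) (enc (f w) ++ α)) ∧
        Hard L c (fun w α => Q (c * w.length) fun v =>
            ∃ t, Pool.Agent.Helper31.TMS.AcceptsAt M (enc (f w) ++ (α ++ v)) t)
          (fun w α => Q (c * w.length) fun v =>
            InMoves M (fun n => C * ((n : ℝ) + 1) ^ (2 : ℝ) /
              ((Nat.log 2 n : ℝ) + 1) ^ 4) (enc (f w) ++ (α ++ v)))) ∧
      (∀ (k : ℕ) (M : TM k) (C : ℝ),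
        Hard L c (fun w α => ∃ t, Pool.Agent.Helper31.TMS.AcceptsAt M (enc (f w) ++ α) t)
          (fun w α => Sparing M C (enc (f w)) α) ∧
        Hard L c (fun w α => Q (c * w.length) fun v =>
            ∃ t, Pool.Agent.Helper31.TMS.AcceptsAt M (enc (f w) ++ (α ++ v)) t)
          (fun w α => Q (c * w.length) fun v => Sparing M C (enc (f w)) (α ++ v))) ∧
      (∀ (M : TM 1) (C : ℝ),
        Hard L c (fun w α => ∃ t, Pool.Agent.Helper31.TMS.AcceptsAt M (enc (f w) ++ α) t)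
          (fun w α => InTime M (fun n => C * ((n : ℝ) + 1) ^ ((5 : ℝ) / 2) /
            ((Nat.log 2 n : ℝ) + 1) ^ 6) (enc (f w) ++ α)) ∧
        Hard L c (fun w α => Q (c * w.length) fun v =>
            ∃ t, Pool.Agent.Helper31.TMS.AcceptsAt M (enc (f w) ++ (α ++ v)) t)
          (fun w α => Q (c * w.length) fun v =>
            InTime M (fun n => C * ((n : ℝ) + 1) ^ ((5 : ℝ) / 2) /
              ((Nat.log 2 n : ℝ) + 1) ^ 6) (enc (f w) ++ (α ++ v)))) ∧
      ∀ U : Set (List Bool), U = Universal ∨ U = NonUniversal →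
        (∀ (P : List Ins) (C : ℝ),
          (∀ x, (∃ t, Pool.Agent.Helper81.RP.AcceptsAt P x [] t) → x ∈ U) →
          {w | Fast P C (enc (f w)) []}.Finite) ∧
        (∀ (k : ℕ) (M : TM k) (C : ℝ),
          (∀ x, (∃ t, Pool.Agent.Helper31.TMS.AcceptsAt M x t) → x ∈ U) →
          {w | InMoves M (fun n => C * ((n : ℝ) + 1) ^ (2 : ℝ) /
            ((Nat.log 2 n : ℝ) + 1) ^ 4) (enc (f w))}.Finite) ∧
        (∀ (k : ℕ) (M : TM k) (C : ℝ),
          (∀ x, (∃ t, Pool.Agent.Helper31.TMS.AcceptsAt M x t) → x ∈ U) →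
          {w | Sparing M C (enc (f w)) []}.Finite) ∧
        ∀ (M : TM 1) (C : ℝ),
          (∀ x, (∃ t, Pool.Agent.Helper31.TMS.AcceptsAt M x t) → x ∈ U) →
          {w | InTime M (fun n => C * ((n : ℝ) + 1) ^ ((5 : ℝ) / 2) /
            ((Nat.log 2 n : ℝ) + 1) ^ 6) (enc (f w))}.Finite := by
  obtain ⟨L, f, b, D, hL, hD, hlin, hle, hlen, hf, h⟩ := regexG (all c) c hc
  have hR := fun (P : List Ins) (C : ℝ) => h _ _ (simG_all (sim_ram hc hD hlen hle P C))
  have hI := fun (k : ℕ) (M : TM k) (C : ℝ) => h _ _ (simG_all (sim_ink hc hD hlen hle M C))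
  have hM := fun (k : ℕ) (M : TM k) (C : ℝ) => h _ _ (simG_simA (hMS c hD hlen hle k M C))
  have hT1 := fun (M : TM 1) (C : ℝ) => h _ _ (simG_all (sim_tm1 (c := c) hD hlen hle M C))
  have hnil : ∀ w, enc (f w) ++ [] = enc (f w) := fun w => List.append_nil _
  refine ⟨L, f, b, hL, hlin, fun w => ⟨hle w, hlen w⟩, hf, (hR [] 0).2.2 ?_, fun P C =>
    (hR P C).1, fun k M C => (hM k M C).1, fun k M C => (hI k M C).1,
    fun M C => (hT1 M C).1, fun U hU => ⟨?_, ?_, ?_, ?_⟩⟩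
  · rintro w α ⟨t, ht⟩
    have h1 : (none : Option Ins) = some .accept := ht
    exact absurd h1 (by simp)
  · exact fun P C hA => (hR P C).2.1 U hU fun w hw => hA _ hw
  · intro k M C hA
    have h1 := (hM k M C).2.1 U hU fun w ⟨t, ht⟩ => by
      rw [hnil] at ht
      exact hA _ ⟨t, ht⟩
    simpa only [hnil] using h1
  · exact fun k M C hA => (hI k M C).2.1 U hU fun w ⟨t, ht⟩ => by
      rw [hnil] at ht
      exact hA _ ⟨t, ht⟩
  · intro M C hA
    have h1 := (hT1 M C).2.1 U hU fun w ⟨t, ht⟩ => by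
      rw [hnil] at ht
      exact hA _ ⟨t, ht⟩
    simpa only [hnil] using h1

/-- **Random words**, for programs of random access machines and Turing machines. -/
theorem random_all (hMS : MovesSim) (c : ℕ) (hc : 0 < c) :
    ∃ D₀ : List Bool → List Bool, LinComp D₀ ∧ ∀ D : List Bool → List Bool, LinComp D →
      (∃ b : ℕ, ∀ w k, Desc D₀ w k → Desc D w (k + b)) →
      (∀ g : ℚ, DLINSPACE (Rand D g) ∧ ∀ n : ℕ,
        ({w : List Bool | w.length = n ∧ w ∉ Rand D g}.ncard : ℝ) < 2 ^ ((g : ℝ) * n + 1)) ∧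
      (∀ (P : List Ins) (C : ℝ),
        KHard D (fun w α => ∃ t, Pool.Agent.Helper81.RP.AcceptsAt P w α t)
          (fun w α => Fast P C w α) ∧
        KHard D (fun w α => Q (c * w.length) fun v =>
            ∃ t, Pool.Agent.Helper81.RP.AcceptsAt P w (α ++ v) t)
          fun w α => Q (c * w.length) fun v => Fast P C w (α ++ v)) ∧
      (∀ (k : ℕ) (M : TM k) (C : ℝ),
        KHard D (fun w α => ∃ t, Pool.Agent.Helper31.TMS.AcceptsAt M (w ++ α) t)
          (fun w α => InMoves M (fun n => C * ((n : ℝ) + 1) ^ (2 : ℝ) /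
            ((Nat.log 2 n : ℝ) + 1) ^ 4) (w ++ α)) ∧
        KHard D (fun w α => Q (c * w.length) fun v =>
            ∃ t, Pool.Agent.Helper31.TMS.AcceptsAt M (w ++ (α ++ v)) t)
          fun w α => Q (c * w.length) fun v =>
            InMoves M (fun n => C * ((n : ℝ) + 1) ^ (2 : ℝ) /
              ((Nat.log 2 n : ℝ) + 1) ^ 4) (w ++ (α ++ v))) ∧
      (∀ (k : ℕ) (M : TM k) (C : ℝ),
        KHard D (fun w α => ∃ t, Pool.Agent.Helper31.TMS.AcceptsAt M (w ++ α) t)
          (fun w α => Sparing M C w α) ∧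
        KHard D (fun w α => Q (c * w.length) fun v =>
            ∃ t, Pool.Agent.Helper31.TMS.AcceptsAt M (w ++ (α ++ v)) t)
          fun w α => Q (c * w.length) fun v => Sparing M C w (α ++ v)) ∧
      ∀ (M : TM 1) (C : ℝ),
        KHard D (fun w α => ∃ t, Pool.Agent.Helper31.TMS.AcceptsAt M (w ++ α) t)
          (fun w α => InTime M (fun n => C * ((n : ℝ) + 1) ^ ((5 : ℝ) / 2) /
            ((Nat.log 2 n : ℝ) + 1) ^ 6) (w ++ α)) ∧
        KHard D (fun w α => Q (c * w.length) fun v =>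
            ∃ t, Pool.Agent.Helper31.TMS.AcceptsAt M (w ++ (α ++ v)) t)
          fun w α => Q (c * w.length) fun v =>
            InTime M (fun n => C * ((n : ℝ) + 1) ^ ((5 : ℝ) / 2) /
              ((Nat.log 2 n : ℝ) + 1) ^ 6) (w ++ (α ++ v)) := by
  obtain ⟨D₀, h1, h2⟩ := simG_kr (all c) c hc
  have hlen : ∀ w : List Bool, w.length ≤ 1 * (w.length + 1) := fun w => by omega
  refine ⟨D₀, h1, fun D hD hb => ?_⟩
  obtain ⟨h3, h4⟩ := h2 D hD hb
  refine ⟨fun g => ⟨h3 g, ncard_rand D g⟩, fun P C => ?_, fun k M C => ?_, fun k M C => ?_,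
    fun M C => ?_⟩
  · exact h4 _ _ (simG_all (sim_ram hc idLD_is hlen (fun _ => le_rfl) P C))
  · exact h4 _ _ (simG_simA (hMS c idLD_is hlen (fun _ => le_rfl) k M C))
  · exact h4 _ _ (simG_all (sim_ink hc idLD_is hlen (fun _ => le_rfl) M C))
  · exact h4 _ _ (simG_all (sim_tm1 idLD_is hlen (fun _ => le_rfl) M C))

end Pool.Agent.Helper92.HB
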