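import Pool.Agent.Helper92.HB.Final
import Pool.Agent.Helper65.BR.Moves

/-!
# The simulation of Turing machines with few moves of the work heads
-/

namespace Pool.Agent.Helper92.HB

theorem movesSim : MovesSim := fun c _ _ hF _ hlen hle k M C =>
  Pool.Agent.Helper65.BR.sim_moves c hF hlen hle k M C

end Pool.Agent.Helper92.HB
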